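import Pool.Agent.Q152.AM.Div

/-!
# Embedding in divisible groups inside the Farrell–Jones class

`Closed C` (`Pool.Agent.Y462.SS.Base`): the class `C` of groups contains `ℤ` and is closed under
groups that embed, finite products, free products, overgroups of finite index and colimits of directed
systems.  `ExtClosed C` (`Pool.Agent.Q152.WP.Perm`): if `G` maps onto a group `Q` of `C`, and the
kernel and the preimages of all infinite cyclic subgroups of `Q` are in `C`, then `G` is in `C`.  These
properties are known for the class of the groups which satisfy the `K`-theoretic Farrell–Jones
conjecture with coefficients in additive categories and finite wreath products.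

Construction.  For a torsion-free group `G` let `G'` be the amalgamated product, over `G`, of all the
groups `G *_(g = r ^ n) ⟨r⟩`, `g ≠ 1`.  It has a homomorphism to the wreath product of `G` and the
symmetric group of the cyclic group of order `n`, which is the diagonal map on `G`: the element `g` of the
diagonal is the `n`-th power of the cyclic permutation with one label `g`.  Hence `G'` is in
`C` if `G` is.  The group `D` is the union of a sequence of groups, in which this step (with `n = k!`)
alternates with the embedding in a mitosis, which makes all elements of the previous group
commutators.
-/

set_option autoImplicit false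

namespace Pool.Agent.Results.MP_28303a_al.DivisibleEmbedding

open Pool.Agent.Y462.SS Pool.Agent.Q152.WP

/-- Every group `G` embeds in a divisible group `D` in which every element is a commutator, such that
`D` belongs to every class `C` of groups with the closure properties `Closed C` and `ExtClosed C` which
contains `G`; the group `D` is torsion-free if `G` is, and countable if `G` is. -/
theorem result (G : Type) [Group G] : ∃ (D : Type) (_ : Group D) (k : G →* D),
    Function.Injective k ∧ (∀ d : D, ∀ n : ℕ, n ≠ 0 → ∃ r : D, r ^ n = d) ∧
    (∀ d : D, ∃ x y : D, d = x * y * x⁻¹ * y⁻¹) ∧
    (∀ C : ∀ (G : Type) [Group G], Prop, Closed C → ExtClosed C → C G → C D) ∧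
    ((∀ u : G, IsOfFinOrder u → u = 1) → ∀ u : D, IsOfFinOrder u → u = 1) ∧
    (Countable G → Countable D) :=
  Pool.Agent.Q152.AM.divisible_embed G

end Pool.Agent.Results.MP_28303a_al.DivisibleEmbedding
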