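import Pool.Agent.Q105.FJ.Asc

/-!
# Local roots of automorphisms whose mapping torus is a Farrell–Jones group

`Closed C` (`Pool.Agent.Y462.SS.Base`): the class `C` of groups contains `ℤ` and is closed under
groups that embed, finite products, free products, overgroups of finite index and colimits of directed
systems with arbitrary structure maps.  `ExtClosed C` (`Pool.Agent.Q152.WP.Perm`): if `G` maps onto a
group `Q` of `C`, and the kernel and the preimages of all infinite cyclic subgroups of `Q` are in `C`,
then `G` is in `C`.  All these properties are known for the class of the groups which satisfy the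
K-theoretic Farrell–Jones conjecture with coefficients and finite wreath products; the negative
K-groups of the group rings over regular rings of its torsion-free members vanish.

`MT N β` is the mapping torus of the automorphism `β` of `N`, i.e. the semidirect product of `N` and
`ℤ`.

Outline of the proof.  Let `K` be normal in `G = K ⟨τ⟩`, let `E` be a finite subset of `K`, and suppose
that `τ^k`, with `k > 0`, acts on `E` as an element `m` of a group `M` in the class that contains `K`.
Then `K` embeds in `M^k` by `x ↦ (x, τ x τ⁻¹, …, τ^(k-1) x τ^(1-k))`, and a cyclic permutation of the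
factors followed by the conjugation by `m` on the last factor acts on `E` as `τ`; so the HNN extension
of `K` whose stable letter acts as `τ` on the subgroup generated by `E` maps to the wreath product of
`M` and a finite group, injectively on `K`, and is in the class.  `G` is the colimit of these HNN
extensions.
-/

set_option autoImplicit false

namespace Pool.Agent.Results.MP_28303a_al.LocalRoots

open Pool.Agent.Y462.SS Pool.Agent.Q152.WP Pool.Agent.Q105.FJ

/-- The mapping torus of the automorphism `β` of `N` is in `C`. -/
def TorusIn (C : ∀ (G : Type) [Group G], Prop) (N : Type) [Group N] (β : MulAut N) : Prop :=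
  C (MT N β)

/-- An automorphism `α` such that on every finite subset some positive power of `α` is equal to an
automorphism whose mapping torus is in `C` has mapping torus in `C`. -/
def RootClosed (C : ∀ (G : Type) [Group G], Prop) : Prop :=
  ∀ (N : Type) [Group N] (α : MulAut N),
    (∀ E : Finset N, ∃ k : ℕ, 0 < k ∧ ∃ β : MulAut N, TorusIn C N β ∧ ∀ x ∈ E, β x = (α ^ k) x) →
      TorusIn C N α

/-- On every finite subset of the subgroup `K` the conjugation by some positive power of `g` is equal
to an automorphism of `K` whose mapping torus is in `C`. -/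
def Root (C : ∀ (G : Type) [Group G], Prop) {G : Type} [Group G] (K : Subgroup G) (g : G) : Prop :=
  ∀ E : Finset K, ∃ k : ℕ, 0 < k ∧ ∃ β : MulAut K, TorusIn C K β ∧
    ∀ x ∈ E, ((β x : K) : G) = g ^ k * x * (g ^ k)⁻¹

/-- On every finite subset of the subgroup `K` the conjugation by some positive power of `g` is equal
to the conjugation by an element of `K`. -/
def LocTorsion {G : Type} [Group G] (K : Subgroup G) (g : G) : Prop :=
  ∀ E : Finset K, ∃ k : ℕ, 0 < k ∧ ∃ n : K, ∀ x ∈ E,
    (n : G) * x * (n : G)⁻¹ = g ^ k * x * (g ^ k)⁻¹

/-- Extensions such that the quotient acts by local roots of automorphisms with mapping torus in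
`C`. -/
def RootExt (C : ∀ (G : Type) [Group G], Prop) : Prop :=
  ∀ (G Q : Type) [Group G] [Group Q] (f : G →* Q), Function.Surjective f → C Q → C f.ker →
    (∀ g : G, ¬ IsOfFinOrder (f g) → Root C f.ker g) → C G

/-- Extensions such that the quotient acts by automorphisms which are locally torsion modulo inner
automorphisms. -/
def TorsionExt (C : ∀ (G : Type) [Group G], Prop) : Prop :=
  ∀ (G Q : Type) [Group G] [Group Q] (f : G →* Q), Function.Surjective f → C Q → C f.ker →
    (∀ g : G, ¬ IsOfFinOrder (f g) → LocTorsion f.ker g) → C G

/-- For every finite tuple `x` of elements of `N` the images of `x` under the automorphisms of `N` are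
conjugate in `N` to finitely many tuples. -/
def FiniteOrbits (N : Type) [Group N] : Prop :=
  ∀ (n : ℕ) (x : Fin n → N), ∃ T : Finset (Fin n → N), ∀ α : MulAut N, ∃ y ∈ T, ∃ c : N,
    ∀ i, α (x i) = c * y i * c⁻¹

/-- All extensions of groups in `C` by the groups in `C` with finite orbits are in `C`. -/
def OrbitExt (C : ∀ (G : Type) [Group G], Prop) : Prop :=
  ∀ (G Q : Type) [Group G] [Group Q] (f : G →* Q), Function.Surjective f → C Q → C f.ker →
    FiniteOrbits f.ker → C G

/-- Groups generated by a subgroup `N` in `C` and an element `t` with `t N t⁻¹ ≤ N`, such that on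
every finite subset of `N` the conjugation by some positive power of `t` is equal to the conjugation
by an element of `N` (for example ascending HNN extensions). -/
def Ascending (C : ∀ (G : Type) [Group G], Prop) : Prop :=
  ∀ (G : Type) [Group G] (N : Subgroup G) (t : G), C N → (∀ x ∈ N, t * x * t⁻¹ ∈ N) →
    Subgroup.closure ((N : Set G) ∪ {t}) = ⊤ →
    (∀ E : Finset G, (∀ x ∈ E, x ∈ N) → ∃ k : ℕ, 0 < k ∧ ∃ n ∈ N,
      ∀ x ∈ E, n * x * n⁻¹ = t ^ k * x * (t ^ k)⁻¹) → C G

/-- Let `C` be a class of groups with the properties `Closed` and `ExtClosed`.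
(1) If an automorphism `α` of a group is such that on every finite subset some positive power of `α` is
equal to an automorphism whose mapping torus is in `C`, then the mapping torus of `α` is in `C`.
(2) The extensions of groups in `C` by groups in `C`, such that the quotient acts by such
automorphisms, are in `C`.
(3) In particular, if the automorphisms are locally torsion modulo inner automorphisms.
(4) All extensions of groups in `C` by groups `N` in `C` with `FiniteOrbits N` are in `C`.
(5) A version for ascending extensions. -/
theorem result (C : ∀ (G : Type) [Group G], Prop) (hC : Closed C) (hE : ExtClosed C) :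
    RootClosed C ∧ RootExt C ∧ TorsionExt C ∧ OrbitExt C ∧ Ascending C := by
  refine ⟨fun N _ α h => mt_roots hC hE α fun E => ?_, fun G Q _ _ f hf hQ hK h =>
    root_kernel hC hE f hf hQ hK fun g hg E => ?_, fun G Q _ _ f hf hQ hK h =>
    root_kernel hC hE f hf hQ hK fun g hg => LocTors.locRoot hC hK fun E => ?_,
    fun G Q _ _ f hf hQ hK h => orbfin_kernel hC hE f hf hQ hK h,
    fun G _ N t hN ht hgen h => asc_mem N t ht hC hE hN hgen fun E hE' => ?_⟩
  · obtain ⟨k, hk, β, hβ, hx⟩ := h E
    obtain ⟨k, rfl⟩ := Nat.exists_eq_succ_of_ne_zero hk.ne'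
    exact ⟨k, β, hβ, hx⟩
  · obtain ⟨k, hk, β, hβ, hx⟩ := h g hg E
    obtain ⟨k, rfl⟩ := Nat.exists_eq_succ_of_ne_zero hk.ne'
    exact ⟨k, β, hβ, hx⟩
  · obtain ⟨k, hk, n, hx⟩ := h g hg E
    obtain ⟨k, rfl⟩ := Nat.exists_eq_succ_of_ne_zero hk.ne'
    exact ⟨k, n, hx⟩
  · obtain ⟨k, hk, n, hn, hx⟩ := h E hE'
    obtain ⟨k, rfl⟩ := Nat.exists_eq_succ_of_ne_zero hk.ne'
    exact ⟨k, n, hn, hx⟩

end Pool.Agent.Results.MP_28303a_al.LocalRoots
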