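import Pool.Agent.Q105.FJ.TriFam

/-!
# Mapping tori of triangular automorphisms of free products of Farrell–Jones groups

`Closed C` (`Pool.Agent.Y462.SS.Base`): the class `C` of groups contains `ℤ` and is closed under
groups that embed, finite products, free products, overgroups of finite index and colimits of directed
systems with arbitrary structure maps.  `ExtClosed C` (`Pool.Agent.Q152.WP.Perm`): if `G` maps onto a
group `Q` of `C`, and the kernel and the preimages of all infinite cyclic subgroups of `Q` are in `C`,
then `G` is in `C`.  All these properties are known for the class of the groups which satisfy the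
K-theoretic Farrell–Jones conjecture with coefficients and finite wreath products; the negative
K-groups of the group rings over regular rings of its torsion-free members vanish.

`MT N α` is the mapping torus of the automorphism `α` of `N`, i.e. the semidirect product of `N` and
`ℤ`.  `CoprodI P` is the free product of the groups `P v`, where `v` runs through a well-ordered set
`V`, and `fs P S` is the subgroup generated by the factors with index in `S`.

Outline of the proof.  The mapping torus of the restriction of `α` to the product of the factors up to
`v` is obtained from the one for the factors before `v` as an amalgamated product with `MT (P v) β` over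
`ℤ = ⟨w⁻¹ t⟩` (first kind), or as an HNN extension with stable letter `x⁻¹` which conjugates `u⁻¹ t` to
`w t` (second kind).  The projection to `ℤ` is injective on the edge groups, hence these groups are in
the class (by the team's theorem `MP_2a0850_gt/EdgeInjective` on HNN extensions and amalgamated products
with a homomorphism that is injective on the edge groups).  At limits one takes unions.
-/

set_option autoImplicit false

namespace Pool.Agent.Results.MP_28303a_al.TriangularAutomorphisms

open Monoid Pool.Agent.Y462.SS Pool.Agent.Q152.WP Pool.Agent.Q105.FJ

/-- The automorphism `α` of the free product of the groups `P v`, `v ∈ V`, is triangular: for every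
`v` it maps the factor `P v` by `p ↦ w β(p) w⁻¹`, with `w` in the product of the factors before `v` and
an automorphism `β` of `P v` with mapping torus in `C` (`KindA`), or `P v` is infinite cyclic with
generator `x` and `α` maps `x` to `u x w` with `u`, `w` in the product of the factors before `v`
(`KindB`). -/
def Triangular (C : ∀ (G : Type) [Group G], Prop) {V : Type} [LinearOrder V] {P : V → Type}
    [∀ v, Group (P v)] (α : MulAut (CoprodI P)) : Prop :=
  ∀ v, KindA α C v ∨ KindB α v

/-- The mapping tori of triangular automorphisms are in `C`. -/
def Tori (C : ∀ (G : Type) [Group G], Prop) : Prop :=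
  ∀ (V : Type) [LinearOrder V] [WellFoundedLT V] (P : V → Type) [∀ v, Group (P v)]
    (α : MulAut (CoprodI P)), Triangular C α → C (MT (CoprodI P) α)

/-- Some positive power of the conjugation by `g` is a triangular automorphism of `K`, with respect to
some decomposition of `K` as a free product. -/
def PowerTriangular (C : ∀ (G : Type) [Group G], Prop) {G : Type} [Group G] (K : Subgroup G)
    (g : G) : Prop :=
  ∃ k : ℕ, 0 < k ∧ ∃ (V : Type) (_ : LinearOrder V) (_ : WellFoundedLT V) (P : V → Type)
    (_ : ∀ v, Group (P v)) (e : K ≃* CoprodI P) (α : MulAut (CoprodI P)), Triangular C α ∧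
      ∀ x y : K, (y : G) = g ^ k * x * (g ^ k)⁻¹ → e y = α (e x)

/-- Extensions such that the elements of infinite order of the quotient act by automorphisms with a
triangular power. -/
def Extensions (C : ∀ (G : Type) [Group G], Prop) : Prop :=
  ∀ (G Q : Type) [Group G] [Group Q] (f : G →* Q), Function.Surjective f → C Q → C f.ker →
    (∀ g : G, ¬ IsOfFinOrder (f g) → PowerTriangular C f.ker g) → C G

/-- **Mapping tori of triangular automorphisms of free products.** -/
theorem result (C : ∀ (G : Type) [Group G], Prop) (hC : Closed C) (hE : ExtClosed C) :
    Tori C ∧ Extensions C := by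
  refine ⟨fun V _ _ P _ α h => tri_mem α h hC hE, fun G Q _ _ f hf hQ hK h =>
    root_kernel hC hE f hf hQ hK fun g hg E => ?_⟩
  obtain ⟨k, hk, V, _, _, P, _, e, α, hα, he⟩ := h g hg
  obtain ⟨k, rfl⟩ := Nat.exists_eq_succ_of_ne_zero hk.ne'
  let β : MulAut f.ker := (e.trans α).trans e.symm
  refine ⟨k, β, ?_, fun x _ => ?_⟩
  · refine hC.of_injective _ _ (mtm β α e.toMonoidHom fun n => ?_)
      (mtm_injective _ _ _ _ e.injective) (tri_mem α hα hC hE)
    exact e.apply_symm_apply _
  · have hn : g ^ (k + 1) * (x : G) * (g ^ (k + 1))⁻¹ ∈ f.ker :=
      (MonoidHom.normal_ker f).conj_mem x x.2 _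
    have h1 := he x ⟨_, hn⟩ rfl
    have h2 : β x = ⟨_, hn⟩ := by
      apply e.injective
      rw [h1]
      exact e.apply_symm_apply _
    rw [h2]

end Pool.Agent.Results.MP_28303a_al.TriangularAutomorphisms
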